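import Pool.Agent.L7h49.PM.Def3

/-!
# Project PM, part ADD
-/

set_option autoImplicit false

namespace Pool.Agent.L7h66.PM

open Pool.Agent.L7h49.PM

lemma pt_zero (a b : ℝ) : pt a b 0 = a := by simp [pt]

lemma pt_one (a b : ℝ) : pt a b 1 = b := by simp [pt]

lemma coord_le (v : E2) (i : Fin 2) : |v i| ≤ ‖v‖ := by
  have h := EuclideanSpace.norm_eq v
  rw [h]
  apply Real.le_sqrt_of_sq_le
  rw [sq_abs]
  have h2 : (v i) ^ 2 = ‖v i‖ ^ 2 := by rw [Real.norm_eq_abs, sq_abs]
  rw [h2]
  exact Finset.single_le_sum (f := fun j => ‖v j‖ ^ 2) (fun j _ => sq_nonneg _) (Finset.mem_univ i)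

theorem s_ADD (hCON : S_CON) : S_ADD := by
  intro V G f C hR t X eta B hS
  have hC : 1 ≤ C := hR.one
  obtain ⟨z, hz⟩ : ∃ z : ℝ, ∀ k, z + 200 * C ≤ eta k := by
    rcases isEmpty_or_nonempty (Fin t) with h | h
    · exact ⟨0, fun k => h.elim k⟩
    · obtain ⟨k0, hk0⟩ := Finite.exists_min eta
      exact ⟨eta k0 - 200 * C, fun k => by linarith [hk0 k]⟩
  obtain ⟨hcon, hfat⟩ := hCON V G f C hR {pt X z}
  set F : Set V := Fat G f C {pt X z} with hF
  have hFat : ∀ w ∈ F, |f w 0 - X| ≤ 6 * C ∧ |f w 1 - z| ≤ 6 * C := by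
    intro w hw
    obtain ⟨p, hp, h1⟩ := hfat w hw
    rw [Set.mem_singleton_iff] at hp
    subst hp
    have h2 := coord_le (f w - pt X z) 0
    have h3 := coord_le (f w - pt X z) 1
    rw [PiLp.sub_apply, pt_zero] at h2
    rw [PiLp.sub_apply, pt_one] at h3
    exact ⟨h2.trans h1, h3.trans h1⟩
  have hFB : ∀ k, Disjoint (B k) F := by
    intro k
    rw [Set.disjoint_left]
    intro w hw hw'
    obtain ⟨h1, h2⟩ := hFat w hw'
    rw [abs_le] at h1 h2
    have h3 := (hS.right k w hw).2 (by linarith)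
    rw [abs_le] at h3
    linarith [hz k]
  refine ⟨Fin.snoc (α := fun _ => ℝ) eta z, Fin.snoc (α := fun _ => Set V) B F, ⟨?_, ?_, ?_, ?_, ?_⟩, ?_⟩
  · intro k
    refine Fin.lastCases ?_ (fun k => ?_) k
    · rw [Fin.snoc_last]
      exact hcon isPreconnected_singleton ⟨_, rfl⟩
    · rw [Fin.snoc_castSucc]
      exact hS.conn k
  · intro k l
    refine Fin.lastCases ?_ (fun k => ?_) k <;> refine Fin.lastCases ?_ (fun l => ?_) l
    · intro h; exact absurd rfl h
    · intro _
      rw [Fin.snoc_last, Fin.snoc_castSucc]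
      exact (hFB l).symm
    · intro _
      rw [Fin.snoc_last, Fin.snoc_castSucc]
      exact hFB k
    · intro h
      rw [Fin.snoc_castSucc, Fin.snoc_castSucc]
      exact hS.disj k l (fun e => h (by rw [e]))
  · intro k l
    refine Fin.lastCases ?_ (fun k => ?_) k <;> refine Fin.lastCases ?_ (fun l => ?_) l
    · intro h; exact absurd rfl h
    · intro _
      rw [Fin.snoc_last, Fin.snoc_castSucc, le_abs]
      right; linarith [hz l]
    · intro _
      rw [Fin.snoc_last, Fin.snoc_castSucc, le_abs]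
      left; linarith [hz k]
    · intro h
      rw [Fin.snoc_castSucc, Fin.snoc_castSucc]
      exact hS.sep k l (fun e => h (by rw [e]))
  · intro k
    refine Fin.lastCases ?_ (fun k => ?_) k
    · rw [Fin.snoc_last, Fin.snoc_last]
      intro w hw
      obtain ⟨h1, h2⟩ := hFat w hw
      rw [abs_le] at h1
      exact ⟨by linarith, fun _ => by linarith⟩
    · rw [Fin.snoc_castSucc, Fin.snoc_castSucc]
      exact hS.right k
  · intro k
    refine Fin.lastCases ?_ (fun k => ?_) k
    · rw [Fin.snoc_last, Fin.snoc_last]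
      intro w hw
      exact ⟨w, ⟨pt X z, rfl, hw⟩, by rw [SimpleGraph.dist_self]; push_cast; linarith⟩
    · rw [Fin.snoc_castSucc, Fin.snoc_castSucc]
      exact hS.endp k
  · intro k
    rw [Fin.snoc_castSucc]

end Pool.Agent.L7h66.PM
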